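import Pool.Agent.H69.TRI.StmtsP

/-! Project TRI, block A: module HALFDISC (helper5). -/

open MeasureTheory Set Filter Topology InnerProductSpace Metric
open scoped Real ComplexConjugate ContDiff Laplacian

namespace Pool.TRI.A

/-- the barrier of the half disc -/
private noncomputable def halfdisc_G (R b σ : ℝ) (z : ℂ) : ℝ :=
  2 * b * ((z.im ^ 2 - z.re ^ 2) / R ^ 2 + 2 * z.re / R) + 2 * σ * (z.re * (R - z.re))

private theorem halfdisc_G_contDiff (R b σ : ℝ) : ContDiff ℝ 2 (halfdisc_G R b σ) := by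
  have hre : ContDiff ℝ 2 (fun z : ℂ => z.re) := Complex.reCLM.contDiff
  have him : ContDiff ℝ 2 (fun z : ℂ => z.im) := Complex.imCLM.contDiff
  unfold halfdisc_G
  exact (contDiff_const.mul ((((him.pow 2).sub (hre.pow 2)).div_const _).add
    ((contDiff_const.mul hre).div_const _))).add
    (contDiff_const.mul (hre.mul (contDiff_const.sub hre)))

private theorem halfdisc_quad (A B C : ℝ) : deriv (deriv fun t : ℝ => A * t ^ 2 + B * t + C) 0 = 2 * A := by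
  have h1 : (deriv fun t : ℝ => A * t ^ 2 + B * t + C) = fun t => 2 * A * t + B := by
    funext t
    have h3 : HasDerivAt (fun t : ℝ => A * t ^ 2 + B * t + C) (A * ((2 : ℕ) * t ^ (2 - 1)) + B * 1) t :=
      (((hasDerivAt_pow 2 t).const_mul A).add ((hasDerivAt_id t).const_mul B)).add_const C
    rw [h3.deriv]
    norm_num
    ring
  rw [h1]
  have h3 : HasDerivAt (fun t : ℝ => 2 * A * t + B) (2 * A * 1) 0 :=
    ((hasDerivAt_id (0 : ℝ)).const_mul (2 * A)).add_const B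
  rw [h3.deriv]
  ring

private theorem halfdisc_G_lap (h3 : LapDStmt) (R b σ : ℝ) (z : ℂ) : (Δ (halfdisc_G R b σ)) z = -4 * σ := by
  rw [h3 _ _ (halfdisc_G_contDiff R b σ).contDiffAt]
  have e1 : (fun t : ℝ => halfdisc_G R b σ (z + t)) = fun t : ℝ =>
      (-(2 * b / R ^ 2) - 2 * σ) * t ^ 2 + (2 * b * (-(2 * z.re) / R ^ 2 + 2 / R) + 2 * σ * (R - 2 * z.re)) * t
        + halfdisc_G R b σ z := by
    funext t
    simp only [halfdisc_G, Complex.add_re, Complex.add_im, Complex.ofReal_re, Complex.ofReal_im]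
    ring
  have e2 : (fun t : ℝ => halfdisc_G R b σ (z + t * Complex.I)) = fun t : ℝ =>
      (2 * b / R ^ 2) * t ^ 2 + (2 * b * (2 * z.im / R ^ 2)) * t
        + halfdisc_G R b σ z := by
    funext t
    simp only [halfdisc_G, Complex.add_re, Complex.add_im, Complex.mul_re, Complex.mul_im, Complex.ofReal_re,
      Complex.ofReal_im, Complex.I_re, Complex.I_im]
    ring
  rw [e1, e2, halfdisc_quad, halfdisc_quad]
  ring

private theorem halfdisc_one (h1 : MaxPStmt) (h2 : LapSimStmt) (h3 : LapDStmt)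
    (q : ℂ → ℝ) (U : Set ℂ) (R b σ : ℝ) (a : ℂ) (hU : IsOpen U) (hq : ContDiffOn ℝ 2 q U) (hR : 0 < R)
    (hRU : closedBall 0 R ⊆ U) (hb : ∀ z ∈ closedBall (0 : ℂ) R, |q z| ≤ b)
    (hσ : ∀ z ∈ closedBall (0 : ℂ) R, |(1 / 2 : ℝ) * (Δ q) z| ≤ σ) (ha : ‖a‖ < R) (ha0 : a ≠ 0) :
    q a - q 0 ≤ ‖a‖ * (2 * b / (R - ‖a‖ / 2) + σ * (R - ‖a‖ / 2)) := by
  have hapos : 0 < ‖a‖ := norm_pos_iff.2 ha0
  have h0mem : (0 : ℂ) ∈ closedBall (0 : ℂ) R := by simp [hR.le]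
  have hb0 : 0 ≤ b := (abs_nonneg _).trans (hb 0 h0mem)
  have hσ0 : 0 ≤ σ := (abs_nonneg _).trans (hσ 0 h0mem)
  obtain ⟨R', hR'⟩ : ∃ R' : ℝ, R' = R - ‖a‖ / 2 := ⟨_, rfl⟩
  rw [← hR']
  have hR'pos : 0 < R' := by rw [hR']; linarith
  have hR'a : ‖a‖ / 2 < R' := by rw [hR']; linarith
  obtain ⟨e, he⟩ : ∃ e : ℂ, e = a / ‖a‖ := ⟨_, rfl⟩
  have hane : (‖a‖ : ℂ) ≠ 0 := by exact_mod_cast hapos.ne'
  have hea : e * ‖a‖ = a := by rw [he, div_mul_cancel₀ _ hane]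
  have hen : ‖e‖ = 1 := by
    rw [he, norm_div, Complex.norm_real, norm_norm, div_self hapos.ne']
  -- points
  have hpt1 : ∀ ζ ∈ closedBall (0 : ℂ) R', a / 2 + e * ζ ∈ closedBall (0 : ℂ) R := by
    intro ζ hζ
    rw [mem_closedBall_zero_iff] at hζ ⊢
    calc ‖a / 2 + e * ζ‖ ≤ ‖a / 2‖ + ‖e * ζ‖ := norm_add_le _ _
      _ = ‖a‖ / 2 + ‖ζ‖ := by rw [norm_div, norm_mul, hen, one_mul]; simp
      _ ≤ R := by rw [hR'] at hζ; linarith
  have hpt2 : ∀ ζ ∈ closedBall (0 : ℂ) R', a / 2 + -e * conj ζ ∈ closedBall (0 : ℂ) R := by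
    intro ζ hζ
    rw [mem_closedBall_zero_iff] at hζ ⊢
    calc ‖a / 2 + -e * conj ζ‖ ≤ ‖a / 2‖ + ‖-e * conj ζ‖ := norm_add_le _ _
      _ = ‖a‖ / 2 + ‖ζ‖ := by rw [norm_div, norm_mul, norm_neg, hen, one_mul, Complex.norm_conj]; simp
      _ ≤ R := by rw [hR'] at hζ; linarith
  have hcd : ∀ z ∈ closedBall (0 : ℂ) R, ContDiffAt ℝ 2 q z := fun z hz => hq.contDiffAt (hU.mem_nhds (hRU hz))
  have hA1 : ContDiff ℝ 2 (fun ζ : ℂ => a / 2 + e * ζ) := by fun_prop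
  have hA2 : ContDiff ℝ 2 (fun ζ : ℂ => a / 2 + -e * conj ζ) := by
    have : ContDiff ℝ 2 (fun w : ℂ => conj w) := Complex.conjCLE.contDiff
    exact contDiff_const.add (contDiff_const.mul this)
  have hq1 : ∀ ζ ∈ closedBall (0 : ℂ) R', ContDiffAt ℝ 2 (fun ζ : ℂ => q (a / 2 + e * ζ)) ζ := fun ζ hζ =>
    (hcd _ (hpt1 ζ hζ)).comp ζ hA1.contDiffAt
  have hq2 : ∀ ζ ∈ closedBall (0 : ℂ) R', ContDiffAt ℝ 2 (fun ζ : ℂ => q (a / 2 + -e * conj ζ)) ζ := fun ζ hζ =>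
    (hcd _ (hpt2 ζ hζ)).comp ζ hA2.contDiffAt
  have hG := halfdisc_G_contDiff R' b σ
  let v : ℂ → ℝ := ((fun ζ : ℂ => q (a / 2 + e * ζ)) - (fun ζ : ℂ => q (a / 2 + -e * conj ζ))) - halfdisc_G R' b σ
  have hvc : ∀ ζ ∈ closedBall (0 : ℂ) R', ContDiffAt ℝ 2 v ζ := fun ζ hζ =>
    ((hq1 ζ hζ).sub (hq2 ζ hζ)).sub hG.contDiffAt
  let Ω : Set ℂ := ball 0 R' ∩ {ζ | 0 < ζ.re}
  have hΩo : IsOpen Ω := isOpen_ball.inter (isOpen_lt continuous_const Complex.continuous_re)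
  have hΩb : Bornology.IsBounded Ω := isBounded_ball.subset inter_subset_left
  have hcl : closure Ω ⊆ closedBall 0 R' ∩ {ζ | 0 ≤ ζ.re} := by
    apply closure_minimal
    · intro ζ hζ
      exact ⟨ball_subset_closedBall hζ.1, (le_of_lt (show 0 < ζ.re from hζ.2) : 0 ≤ ζ.re)⟩
    · exact isClosed_closedBall.inter (isClosed_le continuous_const Complex.continuous_re)
  have hlap : ∀ ζ ∈ Ω, 0 ≤ (Δ v) ζ := by
    intro ζ hζ
    have hζ' : ζ ∈ closedBall (0 : ℂ) R' := ball_subset_closedBall hζ.1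
    have e1 : (Δ v) ζ = (Δ fun ζ : ℂ => q (a / 2 + e * ζ)) ζ - (Δ fun ζ : ℂ => q (a / 2 + -e * conj ζ)) ζ
        - (Δ (halfdisc_G R' b σ)) ζ := by
      have ea : (Δ v) ζ = (Δ ((fun ζ : ℂ => q (a / 2 + e * ζ)) - (fun ζ : ℂ => q (a / 2 + -e * conj ζ)))) ζ
          - (Δ (halfdisc_G R' b σ)) ζ :=
        ContDiffAt.laplacian_sub ((hq1 ζ hζ').sub (hq2 ζ hζ')) hG.contDiffAt
      have eb : (Δ ((fun ζ : ℂ => q (a / 2 + e * ζ)) - (fun ζ : ℂ => q (a / 2 + -e * conj ζ)))) ζ =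
          (Δ fun ζ : ℂ => q (a / 2 + e * ζ)) ζ - (Δ fun ζ : ℂ => q (a / 2 + -e * conj ζ)) ζ :=
        ContDiffAt.laplacian_sub (hq1 ζ hζ') (hq2 ζ hζ')
      rw [ea, eb]
    rw [e1, h2.1 q e (a / 2) ζ (hcd _ (hpt1 ζ hζ')), h2.2 q (-e) (a / 2) ζ (hcd _ (hpt2 ζ hζ')), norm_neg, hen,
      halfdisc_G_lap h3]
    have h4 := abs_le.1 (hσ _ (hpt1 ζ hζ'))
    have h5 := abs_le.1 (hσ _ (hpt2 ζ hζ'))
    linarith [h4.1, h4.2, h5.1, h5.2]
  have hfr : ∀ ζ ∈ frontier Ω, v ζ ≤ 0 := by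
    intro ζ hζ
    rw [hΩo.frontier_eq] at hζ
    have hζc := hcl hζ.1
    have hn : ‖ζ‖ ≤ R' := by simpa using hζc.1
    have hre : 0 ≤ ζ.re := hζc.2
    show q (a / 2 + e * ζ) - q (a / 2 + -e * conj ζ) - halfdisc_G R' b σ ζ ≤ 0
    by_cases hlt : ‖ζ‖ < R'
    · -- the segment
      have hre0 : ζ.re = 0 := by
        by_contra hne
        apply hζ.2
        exact ⟨by simpa using hlt, lt_of_le_of_ne hre (Ne.symm hne)⟩
      have hcj : conj ζ = -ζ := by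
        apply Complex.ext
        · simp [hre0]
        · simp
      have h6 : a / 2 + -e * conj ζ = a / 2 + e * ζ := by rw [hcj]; ring
      rw [h6, sub_self, zero_sub, neg_nonpos]
      unfold halfdisc_G
      rw [hre0]
      have : 0 ≤ 2 * b * (ζ.im ^ 2 / R' ^ 2) := by positivity
      have e7 : 2 * b * ((ζ.im ^ 2 - (0 : ℝ) ^ 2) / R' ^ 2 + 2 * 0 / R') + 2 * σ * (0 * (R' - 0)) =
        2 * b * (ζ.im ^ 2 / R' ^ 2) := by ring
      rw [e7]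
      exact this
    · -- the arc
      have heq : ‖ζ‖ = R' := le_antisymm hn (not_lt.1 hlt)
      have h6 := abs_le.1 (hb _ (hpt1 ζ hζc.1))
      have h7 := abs_le.1 (hb _ (hpt2 ζ hζc.1))
      have hsq : ζ.re ^ 2 + ζ.im ^ 2 = R' ^ 2 := by
        rw [← heq, Complex.sq_norm, Complex.normSq_apply]
        ring
      have hrele : ζ.re ≤ R' := (Complex.re_le_norm ζ).trans hn
      have h8 : 2 * b ≤ halfdisc_G R' b σ ζ := by
        unfold halfdisc_G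
        have h9 : (ζ.im ^ 2 - ζ.re ^ 2) / R' ^ 2 + 2 * ζ.re / R' = 1 + 2 * (ζ.re * (R' - ζ.re)) / R' ^ 2 := by
          field_simp
          nlinarith
        rw [h9]
        have h10 : 0 ≤ ζ.re * (R' - ζ.re) := mul_nonneg hre (by linarith)
        have h11 : 0 ≤ 2 * (ζ.re * (R' - ζ.re)) / R' ^ 2 := by positivity
        have h12 : 0 ≤ 2 * σ * (ζ.re * (R' - ζ.re)) := by positivity
        nlinarith [mul_nonneg hb0 h11]
      linarith [h6.2, h7.1]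
  have hmax := h1 Ω v hΩo hΩb (fun ζ hζ => (hvc ζ (hcl hζ).1).continuousAt.continuousWithinAt)
    (fun ζ hζ => (hvc ζ (ball_subset_closedBall hζ.1)).contDiffWithinAt) hlap hfr
  have hpm : ((‖a‖ / 2 : ℝ) : ℂ) ∈ Ω := by
    refine ⟨?_, ?_⟩
    · rw [mem_ball_zero_iff, Complex.norm_real, Real.norm_of_nonneg (by positivity)]
      exact hR'a
    · show 0 < ((‖a‖ / 2 : ℝ) : ℂ).re
      rw [Complex.ofReal_re]
      positivity
  have h13 := hmax _ (subset_closure hpm)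
  have h14 : a / 2 + e * ((‖a‖ / 2 : ℝ) : ℂ) = a := by
    push_cast
    linear_combination (1 / 2 : ℂ) * hea
  have h15 : a / 2 + -e * conj ((‖a‖ / 2 : ℝ) : ℂ) = 0 := by
    rw [Complex.conj_ofReal]
    push_cast
    linear_combination (-1 / 2 : ℂ) * hea
  have h16 : v ((‖a‖ / 2 : ℝ) : ℂ) = q a - q 0 - halfdisc_G R' b σ ((‖a‖ / 2 : ℝ) : ℂ) := by
    show q (a / 2 + e * ((‖a‖ / 2 : ℝ) : ℂ)) - q (a / 2 + -e * conj ((‖a‖ / 2 : ℝ) : ℂ)) -
      halfdisc_G R' b σ ((‖a‖ / 2 : ℝ) : ℂ) = _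
    rw [h14, h15]
  rw [h16] at h13
  have h17 : halfdisc_G R' b σ ((‖a‖ / 2 : ℝ) : ℂ) ≤ ‖a‖ * (2 * b / R' + σ * R') := by
    unfold halfdisc_G
    rw [Complex.ofReal_re, Complex.ofReal_im]
    have h18 : ‖a‖ * (2 * b / R' + σ * R') - (2 * b * (((0 : ℝ) ^ 2 - (‖a‖ / 2) ^ 2) / R' ^ 2 + 2 * (‖a‖ / 2) / R')
        + 2 * σ * (‖a‖ / 2 * (R' - ‖a‖ / 2))) = b * ‖a‖ ^ 2 / (2 * R' ^ 2) + σ * ‖a‖ ^ 2 / 2 := by
      field_simp
      ring
    have h19 : 0 ≤ b * ‖a‖ ^ 2 / (2 * R' ^ 2) + σ * ‖a‖ ^ 2 / 2 := by positivity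
    linarith
  linarith

theorem halfdisc (h1 : MaxPStmt) (h2 : LapSimStmt) (h3 : LapDStmt) : HalfDiscStmt := by
  intro q U R b σ a hU hq hR hRU hb hσ ha
  by_cases ha0 : a = 0
  · rw [ha0]
    simp
  · rw [abs_le]
    have hA := halfdisc_one h1 h2 h3 q U R b σ a hU hq hR hRU hb hσ ha ha0
    have hB := halfdisc_one h1 h2 h3 (-q) U R b σ a hU hq.neg hR hRU
      (fun z hz => by rw [Pi.neg_apply, abs_neg]; exact hb z hz)
      (fun z hz => by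
        rw [laplacian_neg, Pi.neg_apply, mul_neg, abs_neg]
        exact hσ z hz) ha ha0
    simp only [Pi.neg_apply] at hB
    constructor <;> linarith

end Pool.TRI.A
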