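import Mathlib

/-! Project TRI, block A: helper lemmas on second derivatives (helper5). -/

open Set Filter Topology InnerProductSpace
open scoped Real ComplexConjugate ContDiff Laplacian

namespace Pool.TRI.A.H5

variable {E F : Type*} [NormedAddCommGroup E] [NormedSpace ℝ E] [NormedAddCommGroup F] [NormedSpace ℝ F]

/-- the second derivative along a line -/
theorem second_deriv_line (f : E → F) (z v : E) (hf : ContDiffAt ℝ 2 f z) :
    deriv (deriv fun t : ℝ => f (z + t • v)) 0 = fderiv ℝ (fderiv ℝ f) z v v := by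
  have hline : ∀ t : ℝ, HasDerivAt (fun t : ℝ => z + t • v) v t := by
    intro t
    have := ((hasDerivAt_id t).smul_const v).const_add z
    simpa using this
  have hc : ContinuousAt (fun t : ℝ => z + t • v) 0 := (hline 0).continuousAt
  have h0 : (fun t : ℝ => z + t • v) 0 = z := by simp
  have hev : ∀ᶠ t : ℝ in 𝓝 0, DifferentiableAt ℝ f (z + t • v) := by
    have h1 : ∀ᶠ y in 𝓝 z, DifferentiableAt ℝ f y := by
      have h2 := hf.eventually (by simp)
      filter_upwards [h2] with y hy
      exact hy.differentiableAt (by norm_num)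
    have h3 : Tendsto (fun t : ℝ => z + t • v) (𝓝 0) (𝓝 z) := by
      have := hc.tendsto
      simpa using this
    exact h3.eventually h1
  have heq : (deriv fun t : ℝ => f (z + t • v)) =ᶠ[𝓝 0] fun t => fderiv ℝ f (z + t • v) v := by
    filter_upwards [hev] with t ht
    exact (ht.hasFDerivAt.comp_hasDerivAt t (hline t)).deriv
  rw [heq.deriv_eq]
  have hd : DifferentiableAt ℝ (fderiv ℝ f) z := by
    have : ContDiffAt ℝ 1 (fderiv ℝ f) z := hf.fderiv_right (by norm_num)
    exact this.differentiableAt (by norm_num)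
  have h4 : HasFDerivAt (fderiv ℝ f) (fderiv ℝ (fderiv ℝ f) z) ((fun t : ℝ => z + t • v) 0) := by
    rw [h0]
    exact hd.hasFDerivAt
  have h5 := h4.comp_hasDerivAt (0 : ℝ) (hline 0)
  have h6 := h5.clm_apply (hasDerivAt_const (0 : ℝ) v)
  have h7 := h6.deriv
  simp only [map_zero, add_zero] at h7
  exact h7

theorem laplacian_eq (f : ℂ → F) (z : ℂ) :
    (Δ f) z = fderiv ℝ (fderiv ℝ f) z 1 1 + fderiv ℝ (fderiv ℝ f) z Complex.I Complex.I := by
  rw [laplacian_eq_iteratedFDeriv_complexPlane]
  simp [iteratedFDeriv_two_apply]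

theorem laplacian_line (f : ℂ → F) (z : ℂ) (hf : ContDiffAt ℝ 2 f z) :
    (Δ f) z = deriv (deriv fun t : ℝ => f (z + t)) 0 + deriv (deriv fun t : ℝ => f (z + t * Complex.I)) 0 := by
  rw [laplacian_eq, ← second_deriv_line f z 1 hf, ← second_deriv_line f z Complex.I hf]
  simp

end Pool.TRI.A.H5
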