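import Pool.Agent.H69.TRI.StmtsP
import Pool.Agent.H5.TRI.Lapl

/-! Project TRI, block A: module LAPD (helper5). -/

open MeasureTheory Set Filter Topology InnerProductSpace Metric
open scoped Real ComplexConjugate ContDiff Laplacian

namespace Pool.TRI.A

theorem lapd : LapDStmt := fun f z hf => H5.laplacian_line f z hf

end Pool.TRI.A
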