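import Pool.Agent.H69.TRI.StmtsP
import Pool.Agent.H5.TRI.Lapl

/-! Project TRI, block A: module LAPSIM (helper5). -/

open MeasureTheory Set Filter Topology InnerProductSpace Metric
open scoped Real ComplexConjugate ContDiff Laplacian

namespace Pool.TRI.A

private theorem lapsim_bil (D : ℂ →L[ℝ] ℂ →L[ℝ] ℝ) (κ : ℂ) :
    D κ κ + D (κ * Complex.I) (κ * Complex.I) = ‖κ‖ ^ 2 * (D 1 1 + D Complex.I Complex.I) := by
  have h1 : κ = κ.re • (1 : ℂ) + κ.im • Complex.I := by
    apply Complex.ext <;> simp
  have h2 : κ * Complex.I = (-κ.im) • (1 : ℂ) + κ.re • Complex.I := by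
    apply Complex.ext <;> simp
  have h3 : ‖κ‖ ^ 2 = κ.re ^ 2 + κ.im ^ 2 := by
    rw [Complex.sq_norm, Complex.normSq_apply]
    ring
  rw [h3, h2]
  have h4 : D κ κ = D (κ.re • (1 : ℂ) + κ.im • Complex.I) (κ.re • (1 : ℂ) + κ.im • Complex.I) := by
    rw [← h1]
  rw [h4]
  simp only [map_add, map_smul, add_apply, smul_apply, smul_eq_mul]
  ring

private theorem lapsim_comp (f : ℂ → ℝ) (A : ℂ → ℂ) (z κ : ℂ) (hA : ContDiff ℝ 2 A)
    (h1 : ∀ t : ℝ, A (z + t • (1 : ℂ)) = A z + t • κ)
    (hI : (∀ t : ℝ, A (z + t • Complex.I) = A z + t • (κ * Complex.I)) ∨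
      (∀ t : ℝ, A (z + t • Complex.I) = A z + t • (-(κ * Complex.I))))
    (hf : ContDiffAt ℝ 2 f (A z)) :
    (Δ fun w => f (A w)) z = ‖κ‖ ^ 2 * (Δ f) (A z) := by
  have hfA : ContDiffAt ℝ 2 (fun w => f (A w)) z := hf.comp z hA.contDiffAt
  rw [H5.laplacian_eq, ← H5.second_deriv_line _ z 1 hfA, ← H5.second_deriv_line _ z Complex.I hfA,
    H5.laplacian_eq, ← lapsim_bil, ← H5.second_deriv_line f (A z) κ hf,
    ← H5.second_deriv_line f (A z) (κ * Complex.I) hf]
  congr 1
  · congr 1
    congr 1
    funext t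
    rw [h1 t]
  · rcases hI with hI | hI
    · congr 1
      congr 1
      funext t
      rw [hI t]
    · have : (fun t : ℝ => f (A (z + t • Complex.I))) = fun t : ℝ => f (A z + t • (-(κ * Complex.I))) := by
        funext t
        rw [hI t]
      rw [this, H5.second_deriv_line f (A z) (-(κ * Complex.I)) hf, H5.second_deriv_line f (A z) (κ * Complex.I) hf]
      simp

theorem lapsim : LapSimStmt := by
  constructor
  · intro f κ c z hf
    refine lapsim_comp f (fun w => c + κ * w) z κ (by fun_prop) ?_ (Or.inl ?_) hf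
    · intro t
      simp only [Complex.real_smul]
      ring
    · intro t
      simp only [Complex.real_smul]
      ring
  · intro f κ c z hf
    refine lapsim_comp f (fun w => c + κ * conj w) z κ ?_ ?_ (Or.inr ?_) hf
    · have : ContDiff ℝ 2 (fun w : ℂ => conj w) := Complex.conjCLE.contDiff
      exact contDiff_const.add (contDiff_const.mul this)
    · intro t
      simp only [Complex.real_smul, map_add, map_mul, Complex.conj_ofReal, map_one]
      ring
    · intro t
      simp only [Complex.real_smul, map_add, map_mul, Complex.conj_ofReal, Complex.conj_I]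
      ring

end Pool.TRI.A
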