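import Pool.Agent.H69.TRI.StmtsP

/-! Project TRI, block A: module LAPW (helper5). -/

open MeasureTheory Set Filter Topology InnerProductSpace Metric
open scoped Real ComplexConjugate ContDiff Laplacian

namespace Pool.TRI.A

private def lw (l : List (ℤ × ℕ × ℕ)) : List (ℤ × ℕ × ℕ) := l.map fun t => (t.1 * t.2.1, t.2.1 - 1, t.2.2)
private def lb (l : List (ℤ × ℕ × ℕ)) : List (ℤ × ℕ × ℕ) := l.map fun t => (t.1 * t.2.2, t.2.1, t.2.2 - 1)

private theorem lapw_ev_nil (w : ℂ) : ev [] w = 0 := rfl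

private theorem lapw_ev_cons (t : ℤ × ℕ × ℕ) (l : List (ℤ × ℕ × ℕ)) (w : ℂ) :
    ev (t :: l) w = (t.1 : ℂ) * w ^ t.2.1 * (conj w) ^ t.2.2 + ev l w := by
  simp [ev]

private theorem lapw_line (w V : ℂ) (t : ℝ) : HasDerivAt (fun t : ℝ => w + t * V) V t := by
  have h : HasDerivAt (fun t : ℝ => (t : ℂ)) 1 t := Complex.ofRealCLM.hasDerivAt
  have := (h.mul_const V).const_add w
  simpa using this

private theorem lapw_line' (w V : ℂ) (t : ℝ) : HasDerivAt (fun t : ℝ => conj (w + t * V)) (conj V) t := by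
  have h1 : (fun t : ℝ => conj (w + t * V)) = fun t : ℝ => conj w + t * conj V := by
    funext t
    simp
  rw [h1]
  exact lapw_line (conj w) (conj V) t

private theorem lapw_ev_deriv (l : List (ℤ × ℕ × ℕ)) (w V : ℂ) (t : ℝ) :
    HasDerivAt (fun t : ℝ => ev l (w + t * V))
      (V * ev (lw l) (w + t * V) + conj V * ev (lb l) (w + t * V)) t := by
  induction l with
  | nil =>
    simp only [lw, lb, List.map_nil, lapw_ev_nil, mul_zero, add_zero]
    exact hasDerivAt_const _ _
  | cons τ l ih =>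
    have h1 := ((lapw_line w V t).pow τ.2.1).const_mul (τ.1 : ℂ)
    have h2 := (lapw_line' w V t).pow τ.2.2
    have h3 := (h1.mul h2).add ih
    have h4 : (fun t : ℝ => ev (τ :: l) (w + t * V)) = fun t : ℝ =>
        ((τ.1 : ℂ) * (w + t * V) ^ τ.2.1) * (conj (w + t * V)) ^ τ.2.2 + ev l (w + t * V) := by
      funext t
      rw [lapw_ev_cons]
    rw [h4]
    refine h3.congr_deriv ?_
    simp only [lw, lb, List.map_cons, lapw_ev_cons, Pi.pow_apply]
    push_cast
    ring

private theorem lapw_ev_lwlw (l : List (ℤ × ℕ × ℕ)) (w : ℂ) : ev (lw (lw l)) w = ev (lww l) w := by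
  induction l with
  | nil => rfl
  | cons τ l ih =>
    simp only [lw, lww, List.map_cons, lapw_ev_cons] at ih ⊢
    rw [ih]
    congr 1
    rcases Nat.eq_zero_or_pos τ.2.1 with h | h
    · simp [h]
    · rw [Nat.sub_sub]
      push_cast [Nat.cast_sub h]
      ring

private theorem lapw_ev_lblb (l : List (ℤ × ℕ × ℕ)) (w : ℂ) : ev (lb (lb l)) w = ev (lbb l) w := by
  induction l with
  | nil => rfl
  | cons τ l ih =>
    simp only [lb, lbb, List.map_cons, lapw_ev_cons] at ih ⊢
    rw [ih]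
    congr 1
    rcases Nat.eq_zero_or_pos τ.2.2 with h | h
    · simp [h]
    · rw [Nat.sub_sub]
      push_cast [Nat.cast_sub h]
      ring

private theorem lapw_ev_lwlb (l : List (ℤ × ℕ × ℕ)) (w : ℂ) : ev (lw (lb l)) w = ev (lwb l) w := by
  induction l with
  | nil => rfl
  | cons τ l ih =>
    simp only [lb, lw, lwb, List.map_cons, lapw_ev_cons] at ih ⊢
    rw [ih]
    congr 1
    push_cast
    ring

private theorem lapw_ev_lblw (l : List (ℤ × ℕ × ℕ)) (w : ℂ) : ev (lb (lw l)) w = ev (lwb l) w := by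
  induction l with
  | nil => rfl
  | cons τ l ih =>
    simp only [lb, lw, lwb, List.map_cons, lapw_ev_cons] at ih ⊢
    rw [ih]

private theorem lapw_second (l : List (ℤ × ℕ × ℕ)) (κ w V : ℂ) :
    deriv (deriv fun t : ℝ => (κ * ev l (w + t * V)).re) 0 =
      (κ * (V ^ 2 * ev (lww l) w + 2 * (V * conj V) * ev (lwb l) w + (conj V) ^ 2 * ev (lbb l) w)).re := by
  have h1 : (deriv fun t : ℝ => (κ * ev l (w + t * V)).re) = fun t : ℝ =>
      (κ * (V * ev (lw l) (w + t * V) + conj V * ev (lb l) (w + t * V))).re := by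
    funext t
    have := Complex.reCLM.hasFDerivAt.comp_hasDerivAt t ((lapw_ev_deriv l w V t).const_mul κ)
    exact this.deriv
  rw [h1]
  have h2 := ((lapw_ev_deriv (lw l) w V 0).const_mul V).add ((lapw_ev_deriv (lb l) w V 0).const_mul (conj V))
  have h3 := Complex.reCLM.hasFDerivAt.comp_hasDerivAt (0 : ℝ) (h2.const_mul κ)
  have h4 := h3.deriv
  have h5 : deriv (fun t : ℝ => (κ * (V * ev (lw l) (w + t * V) + conj V * ev (lb l) (w + t * V))).re) 0 =
      (κ * (V * (V * ev (lw (lw l)) (w + (0 : ℝ) * V) + conj V * ev (lb (lw l)) (w + (0 : ℝ) * V)) +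
        conj V * (V * ev (lw (lb l)) (w + (0 : ℝ) * V) + conj V * ev (lb (lb l)) (w + (0 : ℝ) * V)))).re := h4
  rw [h5, lapw_ev_lwlw, lapw_ev_lblb, lapw_ev_lwlb, lapw_ev_lblw]
  congr 1
  simp only [Complex.ofReal_zero, zero_mul, add_zero]
  ring

private theorem lapw_contDiff (l : List (ℤ × ℕ × ℕ)) (β : ℂ) : ContDiff ℝ 2 (fun z => ev l (aff β z)) := by
  have hc : ContDiff ℝ 2 (fun w : ℂ => conj w) := Complex.conjCLE.contDiff
  have ha : ContDiff ℝ 2 (fun z => aff β z) := by
    unfold aff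
    exact contDiff_id.add (contDiff_const.mul hc)
  induction l with
  | nil =>
    simp only [lapw_ev_nil]
    exact contDiff_const
  | cons τ l ih =>
    simp only [lapw_ev_cons]
    exact ((contDiff_const.mul (ha.pow _)).mul ((hc.comp ha).pow _)).add ih

theorem lapw (h : LapDStmt) : LapWStmt := by
  intro l κ β ζ
  have hC : ContDiff ℝ 2 (fun z => (κ * ev l (aff β z)).re) :=
    Complex.reCLM.contDiff.comp (contDiff_const.mul (lapw_contDiff l β))
  rw [h _ ζ hC.contDiffAt]
  have e1 : (fun t : ℝ => (κ * ev l (aff β (ζ + t))).re) =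
      fun t : ℝ => (κ * ev l (aff β ζ + t * (1 + β))).re := by
    funext t
    congr 3
    simp only [aff, map_add, Complex.conj_ofReal]
    ring
  have e2 : (fun t : ℝ => (κ * ev l (aff β (ζ + t * Complex.I))).re) =
      fun t : ℝ => (κ * ev l (aff β ζ + t * (Complex.I * (1 - β)))).re := by
    funext t
    congr 3
    simp only [aff, map_add, map_mul, Complex.conj_ofReal, Complex.conj_I]
    ring
  rw [e1, e2, lapw_second, lapw_second, ← Complex.add_re, ← mul_add]
  congr 2
  have hn : ((‖β‖ ^ 2 : ℝ) : ℂ) = β * conj β := by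
    rw [Complex.mul_conj, Complex.normSq_eq_norm_sq]
  simp only [map_mul, map_add, map_sub, map_one, Complex.conj_I]
  push_cast at hn ⊢
  rw [hn]
  have hI : Complex.I ^ 2 = -1 := Complex.I_sq
  generalize ev (lww l) (aff β ζ) = A
  generalize ev (lwb l) (aff β ζ) = B
  generalize ev (lbb l) (aff β ζ) = C
  linear_combination ((1 - β) ^ 2 * A - 2 * ((1 - β) * (1 - conj β)) * B + (1 - conj β) ^ 2 * C) * hI

end Pool.TRI.A
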