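import Pool.Agent.H69.TRI.StmtsP
import Pool.Agent.H5.TRI.Lapl

/-! Project TRI, block A: module MAXP (helper5). -/

open MeasureTheory Set Filter Topology InnerProductSpace Metric
open scoped Real ComplexConjugate ContDiff Laplacian

namespace Pool.TRI.A

private theorem maxp_second (φ : ℝ → ℝ) (h : IsLocalMax φ 0) (hc : ContinuousAt φ 0) :
    deriv (deriv φ) 0 ≤ 0 := by
  by_contra hcon
  push Not at hcon
  have hmin := isLocalMin_of_deriv_deriv_pos hcon h.deriv_eq_zero hc
  have hconst : φ =ᶠ[𝓝 0] fun _ => φ 0 := by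
    filter_upwards [h, hmin] with t h1 h2
    exact le_antisymm h1 h2
  have h1 : deriv φ =ᶠ[𝓝 0] deriv fun _ : ℝ => φ 0 := hconst.deriv
  rw [h1.deriv_eq] at hcon
  simp at hcon

theorem maxp : MaxPStmt := by
  intro U v hU hb hv hv2 hlap hfr z0 hz0
  by_contra hpos
  push Not at hpos
  obtain ⟨R, hR0, hR⟩ : ∃ R : ℝ, 0 < R ∧ closure U ⊆ closedBall 0 R := by
    obtain ⟨R, hR⟩ := hb.closure.subset_closedBall 0
    exact ⟨max R 1, by positivity, hR.trans (closedBall_subset_closedBall (le_max_left _ _))⟩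
  obtain ⟨ε, hε, hεR⟩ : ∃ ε : ℝ, 0 < ε ∧ ε * R ^ 2 < v z0 := by
    refine ⟨v z0 / (2 * R ^ 2), by positivity, ?_⟩
    rw [div_mul_eq_mul_div, div_lt_iff₀ (by positivity)]
    nlinarith [mul_pos hpos (pow_pos hR0 2)]
  let q : ℂ → ℝ := fun z => ε * (‖z‖ ^ 2 - R ^ 2)
  have hq2 : ContDiff ℝ 2 q := by
    have : ContDiff ℝ 2 (fun z : ℂ => ‖z‖ ^ 2) := contDiff_norm_sq ℝ
    exact contDiff_const.mul (this.sub contDiff_const)
  let g : ℂ → ℝ := fun z => v z + q z
  have hgc : ContinuousOn g (closure U) := hv.add hq2.continuous.continuousOn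
  have hcomp : IsCompact (closure U) := hb.isCompact_closure
  obtain ⟨z1, hz1, hmax⟩ := hcomp.exists_isMaxOn ⟨z0, hz0⟩ hgc
  have hg0 : 0 < g z0 := by
    show 0 < v z0 + ε * (‖z0‖ ^ 2 - R ^ 2)
    have : 0 ≤ ε * ‖z0‖ ^ 2 := by positivity
    nlinarith
  have hg1 : 0 < g z1 := lt_of_lt_of_le hg0 (hmax hz0)
  have hz1U : z1 ∈ U := by
    by_contra hn
    have hfz : z1 ∈ frontier U := by
      rw [hU.frontier_eq]
      exact ⟨hz1, hn⟩
    have h1 := hfr z1 hfz
    have h2 : ‖z1‖ ≤ R := by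
      have := hR hz1
      simpa using this
    have h3 : q z1 ≤ 0 := by
      show ε * (‖z1‖ ^ 2 - R ^ 2) ≤ 0
      have : ‖z1‖ ^ 2 ≤ R ^ 2 := by gcongr
      nlinarith
    have : g z1 = v z1 + q z1 := rfl
    linarith
  have hnb : U ∈ 𝓝 z1 := hU.mem_nhds hz1U
  have hloc : IsLocalMax g z1 := by
    filter_upwards [hnb] with z hz
    exact hmax (subset_closure hz)
  have hvc : ContDiffAt ℝ 2 v z1 := hv2.contDiffAt hnb
  have hgC : ContDiffAt ℝ 2 g z1 := hvc.add hq2.contDiffAt
  have hdir : ∀ w : ℂ, deriv (deriv fun t : ℝ => g (z1 + t • w)) 0 ≤ 0 := by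
    intro w
    have hcont : Continuous (fun t : ℝ => z1 + t • w) := by fun_prop
    have ht : Tendsto (fun t : ℝ => z1 + t • w) (𝓝 0) (𝓝 z1) := by
      have := hcont.tendsto 0
      simpa using this
    apply maxp_second
    · have := ht.eventually hloc
      filter_upwards [this] with t ht'
      simpa using ht'
    · have h1 : ContinuousAt g (z1 + (0 : ℝ) • w) := by
        simpa using hgC.continuousAt
      exact ContinuousAt.comp (f := fun t : ℝ => z1 + t • w) h1 hcont.continuousAt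
  have hlapg : (Δ g) z1 ≤ 0 := by
    rw [H5.laplacian_eq, ← H5.second_deriv_line g z1 1 hgC, ← H5.second_deriv_line g z1 Complex.I hgC]
    linarith [hdir 1, hdir Complex.I]
  have hlapq : (Δ q) z1 = 4 * ε := by
    rw [H5.laplacian_eq, ← H5.second_deriv_line q z1 1 hq2.contDiffAt,
      ← H5.second_deriv_line q z1 Complex.I hq2.contDiffAt]
    have key : ∀ w : ℂ, ‖w‖ = 1 → deriv (deriv fun t : ℝ => q (z1 + t • w)) 0 = 2 * ε := by
      intro w hw
      have h1 : (fun t : ℝ => q (z1 + t • w)) = fun t =>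
          ε * t ^ 2 + (2 * ε * (z1 * conj w).re) * t + ε * (‖z1‖ ^ 2 - R ^ 2) := by
        funext t
        show ε * (‖z1 + t • w‖ ^ 2 - R ^ 2) = _
        have hww : w.re ^ 2 + w.im ^ 2 = 1 := by
          have h9 := Complex.sq_norm w
          rw [hw, Complex.normSq_apply] at h9
          nlinarith
        rw [Complex.sq_norm, Complex.sq_norm, Complex.normSq_apply, Complex.normSq_apply]
        simp only [Complex.add_re, Complex.add_im, Complex.smul_re, Complex.smul_im, smul_eq_mul,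
          Complex.mul_re, Complex.conj_re, Complex.conj_im]
        linear_combination (ε * t ^ 2) * hww
      have h2 : (deriv fun t : ℝ => q (z1 + t • w)) = fun t => 2 * ε * t + 2 * ε * (z1 * conj w).re := by
        funext t
        rw [h1]
        have h3 : HasDerivAt (fun t : ℝ => ε * t ^ 2 + (2 * ε * (z1 * conj w).re) * t + ε * (‖z1‖ ^ 2 - R ^ 2))
            (ε * ((2 : ℕ) * t ^ (2 - 1)) + (2 * ε * (z1 * conj w).re) * 1) t :=
          (((hasDerivAt_pow 2 t).const_mul ε).add ((hasDerivAt_id t).const_mul _)).add_const _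
        rw [h3.deriv]
        norm_num
        ring
      rw [h2]
      have h3 : HasDerivAt (fun t : ℝ => 2 * ε * t + 2 * ε * (z1 * conj w).re) (2 * ε * 1) 0 :=
        ((hasDerivAt_id (0 : ℝ)).const_mul (2 * ε)).add_const _
      rw [h3.deriv]
      ring
    rw [key 1 (by simp), key Complex.I (by simp)]
    ring
  have hadd : (Δ g) z1 = (Δ v) z1 + (Δ q) z1 := hvc.laplacian_add hq2.contDiffAt
  have := hlap z1 hz1U
  linarith

end Pool.TRI.A
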