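import Pool.Agent.H69.TRI.StmtsP

/-! Project TRI, block A: module RAY (helper5). -/

open MeasureTheory Set Filter Topology InnerProductSpace Metric
open scoped Real ComplexConjugate ContDiff Laplacian

namespace Pool.TRI.A

/-- the cut off function -/
private noncomputable def ray_eta (t : ℝ) : ℝ := t * Real.smoothTransition (t ^ 2 - 1)

private theorem ray_eta_contDiff : ContDiff ℝ ∞ ray_eta := by
  unfold ray_eta
  exact contDiff_id.mul (Real.smoothTransition.contDiff.comp ((contDiff_id.pow 2).sub contDiff_const))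

private theorem ray_eta_zero {t : ℝ} (ht : |t| ≤ 1) : ray_eta t = 0 := by
  unfold ray_eta
  have h1 : t ^ 2 ≤ 1 := by
    rw [← sq_abs]
    nlinarith [abs_nonneg t]
  rw [Real.smoothTransition.zero_of_nonpos (by linarith), mul_zero]

private theorem ray_eta_id {t : ℝ} (ht : 2 ≤ |t|) : ray_eta t = t := by
  unfold ray_eta
  have h1 : 4 ≤ t ^ 2 := by
    rw [← sq_abs]
    nlinarith [abs_nonneg t]
  rw [Real.smoothTransition.one_of_one_le (by linarith), mul_one]

private theorem ray_eta_le (t : ℝ) : |ray_eta t| ≤ |t| := by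
  unfold ray_eta
  rw [abs_mul, abs_of_nonneg (Real.smoothTransition.nonneg _)]
  exact mul_le_of_le_one_right (abs_nonneg _) (Real.smoothTransition.le_one _)

private theorem ray_eta_deriv : ∃ C : ℝ, 0 ≤ C ∧ ∀ t, |deriv ray_eta t| ≤ C := by
  have hc : Continuous (deriv ray_eta) := ray_eta_contDiff.continuous_deriv (by simp)
  obtain ⟨C, hC⟩ := (isCompact_Icc (a := (-2 : ℝ)) (b := 2)).exists_bound_of_continuousOn hc.continuousOn
  refine ⟨max C 1, by positivity, fun t => ?_⟩
  by_cases ht : |t| ≤ 2
  · exact (hC t (abs_le.1 ht)).trans (le_max_left _ _)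
  · push Not at ht
    have : ray_eta =ᶠ[𝓝 t] id := by
      have h1 : ∀ᶠ s in 𝓝 t, 2 < |s| := continuous_abs.continuousAt.eventually (lt_mem_nhds ht)
      filter_upwards [h1] with s hs
      exact ray_eta_id hs.le
    rw [this.deriv_eq]
    simp

theorem ray : RayStmt := by
  intro Ω φ hΩ hb hφ hs h0 ⟨K, hK⟩
  by_cases hI : ∫ z in Ω, φ z ^ 2 = 0
  · rw [hI, mul_zero]
    exact integral_nonneg fun z => by positivity
  have hIpos : 0 < ∫ z in Ω, φ z ^ 2 :=
    lt_of_le_of_ne (integral_nonneg fun z => by positivity) (Ne.symm hI)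
  obtain ⟨C, hC0, hC⟩ := ray_eta_deriv
  have hcl : IsCompact (closure Ω) := hb.isCompact_closure
  have hvol : volume Ω < ⊤ := hb.measure_lt_top
  have hsub : {z | φ z ≠ 0} ⊆ Ω := by
    intro z hz
    by_contra hn
    exact hz (h0 z hn)
  let ε : ℕ → ℝ := fun n => 1 / ((n : ℝ) + 1)
  have hε : ∀ n, 0 < ε n := fun n => by positivity
  have hεlim : Tendsto ε atTop (𝓝 0) := tendsto_one_div_add_atTop_nhds_zero_nat
  let v : ℕ → ℂ → ℝ := fun n z => ε n * ray_eta (φ z / ε n)
  -- local behaviour
  have hnear0 : ∀ n z, φ z = 0 → v n =ᶠ[𝓝 z] fun _ => 0 := by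
    intro n z hz
    have h1 : ∀ᶠ w in 𝓝 z, |φ w| < ε n := by
      have h2 : ContinuousAt (fun w => |φ w|) z := (continuous_abs.comp hφ).continuousAt
      refine h2.eventually_lt continuousAt_const ?_
      rw [hz, abs_zero]
      exact hε n
    filter_upwards [h1] with w hw
    show ε n * ray_eta (φ w / ε n) = 0
    rw [ray_eta_zero, mul_zero]
    rw [abs_div, abs_of_pos (hε n), div_le_one (hε n)]
    exact hw.le
  have hφsm : ∀ z ∈ Ω, ContDiffAt ℝ ∞ φ z := fun z hz => hs.contDiffAt (hΩ.mem_nhds hz)
  have hvsm : ∀ n, ContDiff ℝ ∞ (v n) := by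
    intro n
    rw [contDiff_iff_contDiffAt]
    intro z
    by_cases hz : φ z = 0
    · exact contDiffAt_const.congr_of_eventuallyEq (hnear0 n z hz)
    · exact contDiffAt_const.mul (ray_eta_contDiff.contDiffAt.comp z ((hφsm z (hsub hz)).div_const _))
  have hvle : ∀ n z, |v n z| ≤ |φ z| := by
    intro n z
    show |ε n * ray_eta (φ z / ε n)| ≤ |φ z|
    rw [abs_mul, abs_of_pos (hε n)]
    calc ε n * |ray_eta (φ z / ε n)| ≤ ε n * |φ z / ε n| :=
          mul_le_mul_of_nonneg_left (ray_eta_le _) (hε n).le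
      _ = |φ z| := by
        rw [abs_div, abs_of_pos (hε n)]
        field_simp [(hε n).ne']
  have hvsupp : ∀ n, tsupport (v n) ⊆ {z | ε n ≤ |φ z|} := by
    intro n
    apply closure_minimal
    · intro z hz
      by_contra hn
      apply hz
      show ε n * ray_eta (φ z / ε n) = 0
      rw [ray_eta_zero, mul_zero]
      rw [abs_div, abs_of_pos (hε n), div_le_one (hε n)]
      exact (not_le.1 hn).le
    · exact isClosed_le continuous_const (continuous_abs.comp hφ)
  have hvsupp' : ∀ n, tsupport (v n) ⊆ Ω := fun n z hz => by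
    apply hsub
    intro h
    have h1 : ε n ≤ |φ z| := hvsupp n hz
    rw [h, abs_zero] at h1
    exact absurd h1 (not_le.2 (hε n))
  have hvcs : ∀ n, HasCompactSupport (v n) := fun n =>
    hcl.of_isClosed_subset (isClosed_tsupport _) ((hvsupp' n).trans subset_closure)
  -- the bound of the gradient
  have hvz : ∀ n z, z ∉ Ω → fderiv ℝ (v n) z = 0 := by
    intro n z hz
    rw [(hnear0 n z (h0 z hz)).fderiv_eq]
    simp
  have hgrad : ∀ n, ∀ z ∈ Ω, ‖fderiv ℝ (v n) z‖ ≤ C * K := by
    intro n z hz
    have h1 : HasFDerivAt φ (fderiv ℝ φ z) z := ((hφsm z hz).differentiableAt (by simp)).hasFDerivAt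
    have h2 : HasDerivAt (fun t : ℝ => ε n * ray_eta (t / ε n)) (ε n * (deriv ray_eta (φ z / ε n) * (1 / ε n))) (φ z) := by
      have h3 : HasDerivAt ray_eta (deriv ray_eta (φ z / ε n)) (φ z / ε n) :=
        (ray_eta_contDiff.contDiffAt.differentiableAt (by simp)).hasDerivAt
      have h4 : HasDerivAt (fun t : ℝ => t / ε n) (1 / ε n) (φ z) := (hasDerivAt_id _).div_const _
      exact (HasDerivAt.comp (φ z) h3 h4).const_mul (ε n)
    have h5 := h2.comp_hasFDerivAt z h1
    have h6 : fderiv ℝ (v n) z = (ε n * (deriv ray_eta (φ z / ε n) * (1 / ε n))) • fderiv ℝ φ z := h5.fderiv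
    have h7 : ε n * (deriv ray_eta (φ z / ε n) * (1 / ε n)) = deriv ray_eta (φ z / ε n) := by
      field_simp [(hε n).ne']
    rw [h6, h7, norm_smul, Real.norm_eq_abs]
    exact mul_le_mul (hC _) (hK z hz) (norm_nonneg _) hC0
  -- integrability
  have hφcs : HasCompactSupport φ := by
    refine hcl.of_isClosed_subset (isClosed_tsupport _) ?_
    exact closure_mono hsub
  have hφint : Integrable (fun z => φ z ^ 2) := by
    have h1 : Continuous (fun z => φ z ^ 2) := hφ.pow 2
    apply h1.integrable_of_hasCompactSupport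
    exact hφcs.comp_left (g := fun t : ℝ => t ^ 2) (by simp)
  have hφset : ∫ z in Ω, φ z ^ 2 = ∫ z, φ z ^ 2 := by
    apply setIntegral_eq_integral_of_forall_compl_eq_zero
    intro z hz
    rw [h0 z hz]
    norm_num
  -- first limit
  have hlim1 : Tendsto (fun n => ∫ z, v n z ^ 2) atTop (𝓝 (∫ z, φ z ^ 2)) := by
    apply tendsto_integral_of_dominated_convergence (fun z => φ z ^ 2)
    · intro n
      exact ((hvsm n).continuous.pow 2).aestronglyMeasurable
    · exact hφint
    · intro n
      refine Eventually.of_forall fun z => ?_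
      rw [Real.norm_of_nonneg (by positivity)]
      exact sq_le_sq.2 (hvle n z)
    · refine Eventually.of_forall fun z => ?_
      by_cases hz : φ z = 0
      · have : ∀ n, v n z ^ 2 = φ z ^ 2 := fun n => by
          have := (hnear0 n z hz).eq_of_nhds
          rw [this, hz]
        simp only [this]
        exact tendsto_const_nhds
      · have h1 : ∀ᶠ n in atTop, ε n < |φ z| / 2 :=
          hεlim.eventually (gt_mem_nhds (by positivity))
        apply tendsto_const_nhds.congr'
        filter_upwards [h1] with n hn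
        show φ z ^ 2 = (ε n * ray_eta (φ z / ε n)) ^ 2
        rw [ray_eta_id, mul_div_cancel₀ _ (hε n).ne']
        rw [abs_div, abs_of_pos (hε n), le_div_iff₀ (hε n)]
        linarith
  -- second limit
  have hlim2 : Tendsto (fun n => ∫ z, ‖fderiv ℝ (v n) z‖ ^ 2) atTop
      (𝓝 (∫ z, {z | φ z ≠ 0}.indicator (fun z => ‖fderiv ℝ φ z‖ ^ 2) z)) := by
    apply tendsto_integral_of_dominated_convergence (Ω.indicator fun _ => (C * K) ^ 2)
    · intro n
      exact (((hvsm n).continuous_fderiv (by simp)).norm.pow 2).aestronglyMeasurable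
    · rw [integrable_indicator_iff hΩ.measurableSet]
      exact integrableOn_const hvol.ne
    · intro n
      refine Eventually.of_forall fun z => ?_
      rw [Real.norm_of_nonneg (by positivity)]
      by_cases hz : z ∈ Ω
      · rw [indicator_of_mem hz]
        exact pow_le_pow_left₀ (norm_nonneg _) (hgrad n z hz) 2
      · rw [indicator_of_notMem hz, hvz n z hz, norm_zero]
        norm_num
    · refine Eventually.of_forall fun z => ?_
      by_cases hz : φ z = 0
      · have h1 : ∀ n, ‖fderiv ℝ (v n) z‖ ^ 2 = {z | φ z ≠ 0}.indicator (fun z => ‖fderiv ℝ φ z‖ ^ 2) z := fun n => by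
          rw [indicator_of_notMem (by simpa using hz), (hnear0 n z hz).fderiv_eq]
          simp
        simp only [h1]
        exact tendsto_const_nhds
      · have h1 : ∀ᶠ n in atTop, ε n < |φ z| / 2 :=
          hεlim.eventually (gt_mem_nhds (by positivity))
        apply tendsto_const_nhds.congr'
        filter_upwards [h1] with n hn
        rw [indicator_of_mem (show z ∈ {z | φ z ≠ 0} from hz)]
        have h2 : v n =ᶠ[𝓝 z] φ := by
          have h3 : ∀ᶠ w in 𝓝 z, 2 * ε n < |φ w| := by
            have h4 : ContinuousAt (fun w => |φ w|) z := (continuous_abs.comp hφ).continuousAt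
            refine continuousAt_const.eventually_lt h4 ?_
            linarith
          filter_upwards [h3] with w hw
          show ε n * ray_eta (φ w / ε n) = φ w
          rw [ray_eta_id, mul_div_cancel₀ _ (hε n).ne']
          rw [abs_div, abs_of_pos (hε n), le_div_iff₀ (hε n)]
          exact hw.le
        rw [h2.fderiv_eq]
  have hmeas : MeasurableSet {z | φ z ≠ 0} := (hφ.measurable (measurableSet_singleton 0)).compl
  have hJ : ∫ z, {z | φ z ≠ 0}.indicator (fun z => ‖fderiv ℝ φ z‖ ^ 2) z ≤ ∫ z in Ω, ‖fderiv ℝ φ z‖ ^ 2 := by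
    rw [integral_indicator hmeas]
    apply setIntegral_mono_set
    · have h1 : Measurable (fun z => ‖fderiv ℝ φ z‖ ^ 2) := (measurable_fderiv ℝ φ).norm.pow_const 2
      apply Measure.integrableOn_of_bounded (M := K ^ 2) hvol.ne h1.aestronglyMeasurable
      rw [ae_restrict_iff' hΩ.measurableSet]
      refine Eventually.of_forall fun z hz => ?_
      rw [Real.norm_of_nonneg (by positivity)]
      exact pow_le_pow_left₀ (norm_nonneg _) (hK z hz) 2
    · exact Eventually.of_forall fun z => by positivity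
    · exact hsub.eventuallyLE
  -- the infimum
  have hev : ∀ᶠ n in atTop, lambda1 Ω * ∫ z, v n z ^ 2 ≤ ∫ z, ‖fderiv ℝ (v n) z‖ ^ 2 := by
    have hpos : 0 < ∫ z, φ z ^ 2 := by rw [← hφset]; exact hIpos
    filter_upwards [hlim1.eventually (lt_mem_nhds hpos)] with n hn
    have hne : v n ≠ 0 := by
      intro h
      rw [h] at hn
      simp at hn
    have hle : lambda1 Ω ≤ (∫ z, ‖fderiv ℝ (v n) z‖ ^ 2) / ∫ z, v n z ^ 2 := by
      apply csInf_le
      · refine ⟨0, ?_⟩
        rintro r ⟨w, -, rfl⟩
        exact div_nonneg (integral_nonneg fun z => by positivity) (integral_nonneg fun z => by positivity)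
      · exact ⟨v n, ⟨hvsm n, hvcs n, hvsupp' n, hne⟩, rfl⟩
    exact (le_div_iff₀ hn).1 hle
  rw [hφset]
  have hfin := le_of_tendsto_of_tendsto (hlim1.const_mul (lambda1 Ω)) hlim2 hev
  exact hfin.trans hJ

end Pool.TRI.A
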